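import Mathlib

set_option autoImplicit false

/-!
# Quadratic irrationalities in cyclotomic fields
-/

namespace Pool.Agent.TH560.RU

open Polynomial

lemma galois_pow {n : ℕ} (hn : 0 < n) {ζ : ℂ} (hζ : IsPrimitiveRoot ζ n) {v : ℕ}
    (hv : v.Coprime n) {f : ℚ[X]} (hf : aeval ζ f = 0) : aeval (ζ ^ v) f = 0 := by
  have h1 : minpoly ℚ ζ ∣ f := minpoly.dvd ℚ ζ hf
  have h2 : IsPrimitiveRoot (ζ ^ v) n := hζ.pow_of_coprime v hv
  have h3 : cyclotomic n ℚ = minpoly ℚ ζ := cyclotomic_eq_minpoly_rat hζ hn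
  have h4 : cyclotomic n ℚ = minpoly ℚ (ζ ^ v) := cyclotomic_eq_minpoly_rat h2 hn
  obtain ⟨g, rfl⟩ := h1
  rw [map_mul, ← h3, h4, minpoly.aeval, zero_mul]

lemma galois_pow_int {n : ℕ} (hn : 0 < n) {ζ : ℂ} (hζ : IsPrimitiveRoot ζ n) {v : ℕ}
    (hv : v.Coprime n) {f : ℤ[X]} (hf : aeval ζ f = 0) : aeval (ζ ^ v) f = 0 := by
  have h1 : aeval ζ (f.map (Int.castRingHom ℚ)) = 0 := by
    rw [← hf, aeval_def, aeval_def, eval₂_map]
    congr 1
  have h2 := galois_pow hn hζ hv h1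
  rw [← h2, aeval_def, aeval_def, eval₂_map]
  congr 1

/-- a polynomial relation for a root of unity of order `p ^ k` holds modulo `p` at `1` -/
lemma dvd_eval_one {p k : ℕ} (hp : p.Prime) {ζ : ℂ} (hζ : IsPrimitiveRoot ζ (p ^ k))
    {f : ℤ[X]} (hf : aeval ζ f = 0) : (p : ℤ) ∣ f.eval 1 := by
  cases k with
  | zero =>
    have h1 : ζ = 1 := by simpa using hζ
    subst h1
    have h2 : ((f.eval 1 : ℤ) : ℂ) = 0 := by
      rw [← hf]
      simp [aeval_def, eval₂_at_one]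
    have h3 : f.eval 1 = 0 := by exact_mod_cast h2
    rw [h3]; exact dvd_zero _
  | succ k =>
    have hpos : 0 < p ^ (k + 1) := pow_pos hp.pos _
    have h1 : cyclotomic (p ^ (k + 1)) ℤ = minpoly ℤ ζ := cyclotomic_eq_minpoly hζ hpos
    have h2 : minpoly ℤ ζ ∣ f := minpoly.isIntegrallyClosed_dvd (hζ.isIntegral hpos) hf
    obtain ⟨g, rfl⟩ := h2
    have := Fact.mk hp
    rw [← h1, eval_mul, eval_one_cyclotomic_prime_pow]
    exact Dvd.intro _ rfl

/-- integral elements of `ℚ(ζ)` are integer polynomials in `ζ` -/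
lemma exists_int_poly {n : ℕ} (hn : 0 < n) {ζ : ℂ} (hζ : IsPrimitiveRoot ζ n) {z : ℂ}
    (hz : IsIntegral ℤ z) (hzK : z ∈ IntermediateField.adjoin ℚ ({ζ} : Set ℂ)) :
    ∃ h : ℤ[X], aeval ζ h = z := by
  have : NeZero n := ⟨hn.ne'⟩
  have hintQ : IsIntegral ℚ ζ := IsIntegral.tower_top (hζ.isIntegral hn)
  have halg : IsAlgebraic ℚ ζ := hintQ.isAlgebraic
  have : IsCyclotomicExtension {n} ℚ (IntermediateField.adjoin ℚ ({ζ} : Set ℂ)) := by
    change IsCyclotomicExtension {n} ℚ (IntermediateField.adjoin ℚ {ζ}).toSubalgebra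
    rw [IntermediateField.adjoin_simple_toSubalgebra_of_isAlgebraic halg]
    exact hζ.adjoin_isCyclotomicExtension ℚ
  have hζK : ζ ∈ IntermediateField.adjoin ℚ ({ζ} : Set ℂ) :=
    IntermediateField.mem_adjoin_simple_self ℚ ζ
  set ζK : IntermediateField.adjoin ℚ ({ζ} : Set ℂ) := ⟨ζ, hζK⟩ with hζKdef
  have hζK' : IsPrimitiveRoot ζK n := by
    rw [← IsPrimitiveRoot.coe_submonoidClass_iff]
    exact hζ
  set zK : IntermediateField.adjoin ℚ ({ζ} : Set ℂ) := ⟨z, hzK⟩ with hzKdef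
  have hzi : IsIntegral ℤ zK := by
    have hinj : Function.Injective
        (algebraMap (IntermediateField.adjoin ℚ ({ζ} : Set ℂ)) ℂ) := FaithfulSMul.algebraMap_injective _ _
    exact (isIntegral_algebraMap_iff (B := ℂ) hinj).1 hz
  have : NumberField (IntermediateField.adjoin ℚ ({ζ} : Set ℂ)) :=
    IsCyclotomicExtension.numberField {n} ℚ _
  have hc := IsCyclotomicExtension.Rat.isIntegralClosure_adjoin_singleton hζK'
  obtain ⟨⟨w, hw⟩, hw2⟩ := hc.isIntegral_iff.1 hzi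
  rw [Algebra.adjoin_singleton_eq_range_aeval] at hw
  obtain ⟨h, hh⟩ := hw
  refine ⟨h, ?_⟩
  have e1 : aeval ζK h = zK := by
    rw [← hw2]
    exact hh
  have e2 := congrArg (algebraMap (IntermediateField.adjoin ℚ ({ζ} : Set ℂ)) ℂ) e1
  rw [← aeval_algebraMap_apply] at e2
  exact e2

/-- Frobenius congruence for integer polynomials -/
lemma frob (q : ℕ) (hq : q.Prime) (h : ℤ[X]) :
    ∃ w : ℤ[X], h ^ q = h.comp (X ^ q) + C (q : ℤ) * w := by
  have := Fact.mk hq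
  have h1 : (h ^ q - h.comp (X ^ q)).map (Int.castRingHom (ZMod q)) = 0 := by
    rw [Polynomial.map_sub, Polynomial.map_pow, ← ZMod.expand_card, sub_eq_zero, expand_eq_comp_X_pow,
      Polynomial.map_comp, Polynomial.map_pow, Polynomial.map_X]
  have h2 : C (q : ℤ) ∣ h ^ q - h.comp (X ^ q) := by
    rw [C_dvd_iff_dvd_coeff]
    intro i
    have h3 := congrArg (fun f => coeff f i) h1
    simp only [coeff_map, coeff_zero, eq_intCast] at h3
    exact (ZMod.intCast_zmod_eq_zero_iff_dvd _ _).1 h3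
  obtain ⟨w, hw⟩ := h2
  exact ⟨w, by rw [← hw]; ring⟩

lemma aeval_comp_X_pow (h : ℤ[X]) (z : ℂ) (q : ℕ) : aeval z (h.comp (X ^ q)) = aeval (z ^ q) h := by
  rw [aeval_comp, map_pow, aeval_X]

lemma isIntegral_aeval {n : ℕ} (hn : 0 < n) {ζ : ℂ} (hζ : IsPrimitiveRoot ζ n) (h : ℤ[X]) :
    IsIntegral ℤ (aeval ζ h) := by
  have h1 : IsIntegral ℤ ζ := hζ.isIntegral hn
  have h2 : aeval ζ h ∈ Algebra.adjoin ℤ ({ζ} : Set ℂ) := aeval_mem_adjoin_singleton ℤ ζ
  exact adjoin_le_integralClosure h1 h2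

/-- a rational number which is an algebraic integer is an integer -/
lemma dvd_of_integral (a b : ℤ) (w : ℂ) (hw : IsIntegral ℤ w) (hb : b ≠ 0)
    (h : (a : ℂ) = b * w) : b ∣ a := by
  have hb' : (b : ℂ) ≠ 0 := by exact_mod_cast hb
  have h1 : w = ((a / b : ℚ) : ℂ) := by
    push_cast
    field_simp
    linear_combination -h
  have h2 : IsIntegral ℤ ((a / b : ℚ)) := by
    have hinj : Function.Injective (algebraMap ℚ ℂ) := FaithfulSMul.algebraMap_injective _ _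
    refine (isIntegral_algebraMap_iff (B := ℂ) hinj).1 ?_
    have h3 : (algebraMap ℚ ℂ) (a / b : ℚ) = w := by rw [h1]; rfl
    rw [h3]; exact hw
  obtain ⟨c, hc⟩ := IsIntegrallyClosed.isIntegral_iff.1 h2
  refine ⟨c, ?_⟩
  have hb2 : (b : ℚ) ≠ 0 := by exact_mod_cast hb
  have h3 : (c : ℚ) = a / b := by simpa using hc
  rw [eq_div_iff hb2] at h3
  have h4 : (c : ℤ) * b = a := by exact_mod_cast h3
  rw [← h4]; ring

/-- the Frobenius of a quadratic irrationality -/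
lemma frob_quad {n : ℕ} (hn : 0 < n) {ζ : ℂ} (hζ : IsPrimitiveRoot ζ n) {q : ℕ} (hq : q.Prime)
    (hqn : q.Coprime n) (D : ℤ) (h : ℤ[X]) (hD : aeval ζ h ^ 2 = (D : ℂ)) :
    ∃ w : ℤ[X], ∃ ε : ℤ, (ε = 1 ∨ ε = -1) ∧
      aeval ζ h ^ q = ε * aeval ζ h + q * aeval ζ w := by
  obtain ⟨w, hw⟩ := frob q hq h
  have h1 := congrArg (aeval ζ) hw
  rw [map_pow, map_add, aeval_comp_X_pow, map_mul, aeval_C] at h1
  have h2 : aeval ζ (h ^ 2 - C D) = 0 := by
    rw [map_sub, map_pow, hD, aeval_C]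
    simp
  have h3 := galois_pow_int hn hζ hqn h2
  rw [map_sub, map_pow, aeval_C] at h3
  have h4 : aeval (ζ ^ q) h ^ 2 = aeval ζ h ^ 2 := by
    rw [hD]
    have h5 : (algebraMap ℤ ℂ) D = (D : ℂ) := by simp
    rw [h5] at h3
    linear_combination h3
  rcases sq_eq_sq_iff_eq_or_eq_neg.1 h4 with h5 | h5
  · refine ⟨w, 1, Or.inl rfl, ?_⟩
    rw [h1, h5]; simp
  · refine ⟨w, -1, Or.inr rfl, ?_⟩
    rw [h1, h5]; simp

/-- an odd prime ramified in `ℚ(√D)` divides `n` if `√D ∈ ℚ(ζ_n)` -/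
lemma odd_prime_dvd {n : ℕ} (hn : 0 < n) {ζ : ℂ} (hζ : IsPrimitiveRoot ζ n) {q : ℕ}
    (hq : q.Prime) (hq2 : q ≠ 2) (D : ℤ) (hD : Squarefree D) (hqD : (q : ℤ) ∣ D)
    (h : ℤ[X]) (hh : aeval ζ h ^ 2 = (D : ℂ)) : q ∣ n := by
  by_contra hqn
  have hcop : q.Coprime n := (Nat.Prime.coprime_iff_not_dvd hq).2 hqn
  obtain ⟨w, ε, hε, h1⟩ := frob_quad hn hζ hq hcop D h hh
  obtain ⟨D', rfl⟩ := hqD
  have hqodd : Odd q := hq.odd_of_ne_two hq2
  obtain ⟨j, hj⟩ := hqodd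
  have hj0 : j ≠ 0 := by
    rintro rfl
    simp at hj
    rw [hj] at hq
    exact Nat.not_prime_one hq
  obtain ⟨j', rfl⟩ := Nat.exists_eq_succ_of_ne_zero hj0
  set r := aeval ζ h with hr
  have h2 : r ^ q = r * ((q * D' : ℤ) : ℂ) ^ (j' + 1) := by
    rw [← hh, hj, ← pow_mul, Nat.succ_eq_add_one, pow_succ, mul_comm]
  -- `r = q * v`
  have hεε : (ε : ℂ) * ε = 1 := by rcases hε with h | h <;> rw [h] <;> norm_num
  set v : ℂ := ε * (r * ((D' : ℤ) : ℂ) * ((q * D' : ℤ) : ℂ) ^ j' - aeval ζ w) with hv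
  have h3 : r = q * v := by
    have h4 : (ε : ℂ) * r = q * (r * ((D' : ℤ) : ℂ) * ((q * D' : ℤ) : ℂ) ^ j' - aeval ζ w) := by
      have h5 := h1
      rw [h2, pow_succ] at h5
      push_cast at h5 ⊢
      linear_combination -h5
    calc r = (ε * ε) * r := by rw [hεε, one_mul]
      _ = ε * (ε * r) := by ring
      _ = q * v := by rw [h4, hv]; ring
  have hvi : IsIntegral ℤ v := by
    have i1 : IsIntegral ℤ r := isIntegral_aeval hn hζ h
    have i2 : IsIntegral ℤ (aeval ζ w) := isIntegral_aeval hn hζ w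
    have i3 : ∀ c : ℤ, IsIntegral ℤ (c : ℂ) := fun c => by
      have := isIntegral_algebraMap (R := ℤ) (A := ℂ) (x := c)
      simpa using this
    exact (i3 ε).mul ((((i1.mul (i3 D')).mul ((i3 _).pow j'))).sub i2)
  have h6 : ((q * D' : ℤ) : ℂ) = ((q * q : ℤ) : ℂ) * v ^ 2 := by
    rw [← hh, h3]; push_cast; ring
  have hq0 : (q : ℤ) ≠ 0 := by exact_mod_cast hq.ne_zero
  have h7 := dvd_of_integral _ _ _ (hvi.pow 2) (mul_ne_zero hq0 hq0) h6
  have h8 := hD (q : ℤ) h7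
  exact hq.ne_one (by
    have h9 := Int.isUnit_iff.1 h8
    have : 0 < (q : ℤ) := by exact_mod_cast hq.pos
    have : (q : ℤ) = 1 := by omega
    exact_mod_cast this)

/-- for odd `m`, `√D ∈ ℤ[ζ_m]` forces `D ≡ 0, 1 mod 4` -/
lemma mod_four {m : ℕ} (hm : Odd m) {ζ : ℂ} (hζ : IsPrimitiveRoot ζ m) (D : ℤ)
    (h : ℤ[X]) (hh : aeval ζ h ^ 2 = (D : ℂ)) : D % 4 = 0 ∨ D % 4 = 1 := by
  have hm0 : 0 < m := hm.pos
  have hcop : Nat.Coprime 2 m := (Nat.coprime_two_left).2 hm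
  obtain ⟨w, ε, hε, h1⟩ := frob_quad hm0 hζ Nat.prime_two hcop D h hh
  set r := aeval ζ h with hr
  have i3 : ∀ c : ℤ, IsIntegral ℤ (c : ℂ) := fun c => by
    have := isIntegral_algebraMap (R := ℤ) (A := ℂ) (x := c)
    simpa using this
  have i1 : IsIntegral ℤ r := isIntegral_aeval hm0 hζ h
  have i2 : IsIntegral ℤ (aeval ζ w) := isIntegral_aeval hm0 hζ w
  have hεε : (ε : ℂ) * ε = 1 := by rcases hε with h | h <;> rw [h] <;> norm_num
  have h2 : r = ε * D - 2 * (ε * aeval ζ w) := by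
    have h5 : (D : ℂ) = ε * r + 2 * aeval ζ w := by
      rw [← hh]
      have := h1
      push_cast at this
      exact this
    calc r = (ε * ε) * r := by rw [hεε, one_mul]
      _ = ε * D - 2 * (ε * aeval ζ w) := by rw [h5]; ring
  rcases Int.even_or_odd D with ⟨e, he⟩ | ⟨e, he⟩
  · left
    have h6 : (D : ℂ) = ((4 : ℤ) : ℂ) * (ε * e - ε * aeval ζ w) ^ 2 := by
      rw [← hh, h2, he]; push_cast; ring
    have h7 := dvd_of_integral _ _ _ ((((i3 ε).mul (i3 e)).sub ((i3 ε).mul i2)).pow 2)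
      (by norm_num) h6
    omega
  · right
    set v : ℂ := ε * e + (((ε - 1) / 2 : ℤ) : ℂ) - ε * aeval ζ w with hv
    have h8 : (2 : ℂ) * (((ε - 1) / 2 : ℤ) : ℂ) = ε - 1 := by
      rcases hε with h | h <;> rw [h] <;> norm_num
    have h9 : r = 1 + 2 * v := by
      rw [h2, hv, he]; push_cast
      linear_combination -h8
    have h6 : ((D - 1 : ℤ) : ℂ) = ((4 : ℤ) : ℂ) * (v + v ^ 2) := by
      push_cast
      rw [← hh, h9]; ring
    have hvi : IsIntegral ℤ v := (((i3 ε).mul (i3 e)).add (i3 _)).sub ((i3 ε).mul i2)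
    have h7 := dvd_of_integral _ _ _ (hvi.add (hvi.pow 2)) (by norm_num) h6
    omega

/-- splitting a polynomial value at `i z` -/
lemma split_I (h : ℤ[X]) : ∃ A B : ℤ[X], ∀ z : ℂ,
    aeval (Complex.I * z) h = aeval z A + Complex.I * aeval z B ∧
    aeval (-(Complex.I * z)) h = aeval z A - Complex.I * aeval z B := by
  induction h using Polynomial.induction_on' with
  | add p q hp hq =>
    obtain ⟨A, B, hAB⟩ := hp
    obtain ⟨A', B', hAB'⟩ := hq
    refine ⟨A + A', B + B', fun z => ?_⟩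
    simp only [map_add, (hAB z).1, (hAB' z).1, (hAB z).2, (hAB' z).2]
    constructor <;> ring
  | monomial j c =>
    rcases Nat.even_or_odd' j with ⟨e, rfl | rfl⟩
    · refine ⟨C (c * (-1) ^ e) * X ^ (2 * e), 0, fun z => ?_⟩
      simp only [aeval_monomial, map_mul, map_pow, aeval_X, aeval_C, map_zero, mul_zero, add_zero,
        sub_zero]
      have h1 : (Complex.I * z) ^ (2 * e) = (-1) ^ e * z ^ (2 * e) := by
        rw [mul_pow, pow_mul Complex.I, Complex.I_sq]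
      constructor
      · rw [h1]; simp; ring
      · rw [neg_pow, pow_mul (-1 : ℂ), h1]; simp; ring
    · refine ⟨0, C (c * (-1) ^ e) * X ^ (2 * e + 1), fun z => ?_⟩
      simp only [aeval_monomial, map_mul, map_pow, aeval_X, aeval_C, map_zero, zero_add]
      have h1 : (Complex.I * z) ^ (2 * e + 1) = Complex.I * ((-1) ^ e * z ^ (2 * e + 1)) := by
        rw [mul_pow, pow_succ Complex.I, pow_mul Complex.I, Complex.I_sq]; ring
      constructor
      · rw [h1]; simp; ring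
      · rw [neg_pow, pow_succ (-1 : ℂ), pow_mul (-1 : ℂ), h1]; simp; ring

/-- if `D ≡ 3 mod 4` and `√D ∈ ℤ[ζ_n]` then `4 ∣ n` -/
lemma four_dvd {n : ℕ} (hn : 0 < n) {ζ : ℂ} (hζ : IsPrimitiveRoot ζ n) (D : ℤ) (hD : D % 4 = 3)
    (h : ℤ[X]) (hh : aeval ζ h ^ 2 = (D : ℂ)) : 4 ∣ n := by
  by_contra h4
  obtain ⟨m, hm, hnm⟩ : ∃ m : ℕ, Odd m ∧ n ∣ 2 * m := by
    rcases Nat.even_or_odd n with ⟨e, he⟩ | ho
    · refine ⟨e, ?_, ⟨1, by omega⟩⟩
      rw [← Nat.not_even_iff_odd]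
      rintro ⟨f, hf⟩
      exact h4 ⟨f, by omega⟩
    · exact ⟨n, ho, Dvd.intro_left _ rfl⟩
  have hz := Complex.isPrimitiveRoot_exp m hm.pos.ne'
  set z := Complex.exp (2 * Real.pi * Complex.I / m) with hzdef
  have hz2 : ((-1 : ℂ) * z) ^ (2 * m) = 1 := by
    rw [mul_pow, pow_mul, mul_comm 2 m, pow_mul z, hz.pow_eq_one]; norm_num
  have hprim : IsPrimitiveRoot ((-1 : ℂ) * z) (2 * m) := by
    have h2 : IsPrimitiveRoot (-1 : ℂ) 2 := IsPrimitiveRoot.neg_one 0 (by norm_num)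
    have hc : Nat.Coprime 2 m := Nat.coprime_two_left.2 hm
    exact IsPrimitiveRoot.iff_orderOf.2 (by
      rw [(Commute.all _ _).orderOf_mul_eq_mul_orderOf_of_coprime, ← h2.eq_orderOf,
        ← hz.eq_orderOf]
      rw [← h2.eq_orderOf, ← hz.eq_orderOf]
      exact hc)
  have hζ2 : ζ ^ (2 * m) = 1 := by
    obtain ⟨c, hc⟩ := hnm
    rw [hc, pow_mul, hζ.pow_eq_one, one_pow]
  have : NeZero (2 * m) := ⟨by have := hm.pos; omega⟩
  obtain ⟨b, -, hb⟩ := hprim.eq_pow_of_pow_eq_one hζ2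
  have h1 : aeval z (h.comp ((-X) ^ b)) = aeval ζ h := by
    rw [aeval_comp, map_pow, map_neg, aeval_X, ← hb]
    ring_nf
  have h2 := mod_four hm hz D (h.comp ((-X) ^ b)) (by rw [h1, hh])
  omega

/-- if `D ≡ 2 mod 4` and `√D ∈ ℤ[ζ_n]` then `8 ∣ n` -/
lemma eight_dvd {n : ℕ} (hn : 0 < n) {ζ : ℂ} (hζ : IsPrimitiveRoot ζ n) (D : ℤ) (hD : D % 4 = 2)
    (h : ℤ[X]) (hh : aeval ζ h ^ 2 = (D : ℂ)) : 8 ∣ n := by
  by_contra h8
  obtain ⟨m, hm, hnm⟩ : ∃ m : ℕ, Odd m ∧ n ∣ 4 * m := by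
    obtain ⟨a, m, hm, hnm⟩ := Nat.exists_eq_two_pow_mul_odd hn.ne'
    refine ⟨m, hm, ?_⟩
    have ha : a ≤ 2 := by
      by_contra ha
      push Not at ha
      apply h8
      rw [hnm]
      exact Dvd.dvd.mul_right (pow_dvd_pow 2 ha) m
    rw [hnm]
    exact Nat.mul_dvd_mul_right (pow_dvd_pow 2 ha) m
  have hz := Complex.isPrimitiveRoot_exp m hm.pos.ne'
  set z := Complex.exp (2 * Real.pi * Complex.I / m) with hzdef
  have hm0 : 0 < 4 * m := by have := hm.pos; omega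
  have hprim : IsPrimitiveRoot (Complex.I * z) (4 * m) := by
    have h2 : IsPrimitiveRoot Complex.I 4 := Complex.isPrimitiveRoot_I
    have hc : Nat.Coprime 4 m := by
      have : Nat.Coprime (2 ^ 2) m := Nat.Coprime.pow_left 2 (Nat.coprime_two_left.2 hm)
      exact this
    exact IsPrimitiveRoot.iff_orderOf.2 (by
      rw [(Commute.all _ _).orderOf_mul_eq_mul_orderOf_of_coprime, ← h2.eq_orderOf,
        ← hz.eq_orderOf]
      rw [← h2.eq_orderOf, ← hz.eq_orderOf]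
      exact hc)
  have hζ2 : ζ ^ (4 * m) = 1 := by
    obtain ⟨c, hc⟩ := hnm
    rw [hc, pow_mul, hζ.pow_eq_one, one_pow]
  have : NeZero (4 * m) := ⟨hm0.ne'⟩
  obtain ⟨b, -, hb⟩ := hprim.eq_pow_of_pow_eq_one hζ2
  set h' := h.comp (X ^ b) with hh'
  have h1 : aeval (Complex.I * z) h' = aeval ζ h := by
    rw [hh', aeval_comp_X_pow, hb]
  obtain ⟨A, B, hAB⟩ := split_I h'
  have hv : (2 * m + 1).Coprime (4 * m) := by
    have e1 : (2 * m + 1).Coprime 4 := by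
      have : (2 * m + 1).Coprime (2 ^ 2) :=
        Nat.Coprime.pow_right 2 (Nat.coprime_two_right.2 ⟨m, rfl⟩)
      exact this
    have e2 : (2 * m + 1).Coprime m := by
      rw [Nat.coprime_comm]
      simp
    exact Nat.Coprime.mul_right e1 e2
  have h3 : aeval (Complex.I * z) (h' ^ 2 - C D) = 0 := by
    rw [map_sub, map_pow, h1, hh, aeval_C]
    simp
  have h4 := galois_pow_int hm0 hprim hv h3
  have h5 : (Complex.I * z) ^ (2 * m + 1) = -(Complex.I * z) := by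
    rw [pow_succ, mul_pow, pow_mul Complex.I, Complex.I_sq, hm.neg_one_pow, mul_comm 2 m,
      pow_mul z, hz.pow_eq_one]
    ring
  rw [h5, map_sub, map_pow, aeval_C, (hAB z).2] at h4
  rw [map_sub, map_pow, aeval_C, (hAB z).1] at h3
  have h6 : aeval z A * aeval z B = 0 := by
    have h7 : Complex.I * (aeval z A * aeval z B) = 0 := by
      linear_combination (h3 - h4) / 4
    exact (mul_eq_zero.1 h7).resolve_left Complex.I_ne_zero
  have h8' : (algebraMap ℤ ℂ) D = (D : ℂ) := by simp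
  rw [h8'] at h3
  rcases mul_eq_zero.1 h6 with h7 | h7
  · rw [h7] at h3
    have h9 : aeval z B ^ 2 = ((-D : ℤ) : ℂ) := by
      push_cast
      linear_combination -h3 + (aeval z B ^ 2) * Complex.I_sq
    have := mod_four hm hz (-D) B h9
    omega
  · rw [h7] at h3
    have h9 : aeval z A ^ 2 = (D : ℂ) := by
      linear_combination h3
    have := mod_four hm hz D A h9
    omega

/-- the conductor of `ℚ(√D)` divides `n` if `√D ∈ ℚ(ζ_n)` -/
theorem conductor {n : ℕ} (hn : 0 < n) {ζ : ℂ} (hζ : IsPrimitiveRoot ζ n) (D : ℤ)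
    (hD : Squarefree D) (r : ℂ) (hr : r ∈ IntermediateField.adjoin ℚ ({ζ} : Set ℂ))
    (h : r ^ 2 = D) : (∀ q : ℕ, q.Prime → (q : ℤ) ∣ D → q ∣ n) ∧ (2 ∣ D → 8 ∣ n) ∧
      (D % 4 = 3 → 4 ∣ n) := by
  have hri : IsIntegral ℤ r := by
    have h1 : IsIntegral ℤ (r ^ 2) := by
      rw [h]
      have := isIntegral_algebraMap (R := ℤ) (A := ℂ) (x := D)
      simpa using this
    exact IsIntegral.of_pow (by norm_num) h1
  obtain ⟨f, hf⟩ := exists_int_poly hn hζ hri hr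
  have hf2 : aeval ζ f ^ 2 = (D : ℂ) := by rw [hf, h]
  have h2 : 2 ∣ D → 8 ∣ n := by
    intro h2
    refine eight_dvd hn hζ D ?_ f hf2
    have h4 : ¬ (4 : ℤ) ∣ D := by
      intro h4
      have h5 := hD 2 (by simpa using h4)
      have := Int.isUnit_iff.1 h5
      omega
    omega
  refine ⟨?_, h2, fun h3 => four_dvd hn hζ D h3 f hf2⟩
  intro q hq hqD
  by_cases hq2 : q = 2
  · subst hq2
    exact Dvd.dvd.trans (by norm_num) (h2 (by exact_mod_cast hqD))
  · exact odd_prime_dvd hn hζ hq hq2 D hD hqD f hf2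

end Pool.Agent.TH560.RU
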