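import Mathlib
import Pool.Agent.H109R2.Phases
import Pool.Agent.TH560.RU.Cond

set_option autoImplicit false

/-!
# Maximal ETFs whose phases are roots of unity
-/

namespace Pool.Agent.TH560.RU

open Polynomial Pool.Agent.H109R2.SIC Pool.Agent.H109R2.Phases

variable {d : ℕ} {x : Fin (d ^ 2) → EuclideanSpace ℂ (Fin d)}

lemma mem_adjoin_of_pow {n : ℕ} (hn : 0 < n) {ζ : ℂ} (hζ : IsPrimitiveRoot ζ n) {t : ℂ}
    (ht : t ^ n = 1) : t ∈ IntermediateField.adjoin ℚ ({ζ} : Set ℂ) := by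
  have : NeZero n := ⟨hn.ne'⟩
  obtain ⟨a, -, rfl⟩ := hζ.eq_pow_of_pow_eq_one ht
  exact pow_mem (IntermediateField.mem_adjoin_simple_self ℚ ζ) a

lemma mem_others {i j k : Fin (d ^ 2)} (hk : k ∈ others i j) : k ≠ i ∧ k ≠ j := by
  have h1 := Finset.mem_erase.mp hk
  exact ⟨(Finset.mem_erase.mp h1.2).1, h1.1⟩

/-- `√(d+1)` lies in the cyclotomic field -/
lemma sqrt_mem (hd : 3 ≤ d) (hx : IsMaxETF d x) {i j : Fin (d ^ 2)} (hij : i ≠ j) {n : ℕ}
    (hn : 0 < n) {ζ : ℂ} (hζ : IsPrimitiveRoot ζ n)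
    (h : ∀ k, k ≠ i → k ≠ j → nt x i k j ^ n = 1) :
    ((Real.sqrt ((d : ℝ) + 1) : ℝ) : ℂ) ∈ IntermediateField.adjoin ℚ ({ζ} : Set ℂ) := by
  have h1 := sum1 hx hij
  have h2 : ∑ k ∈ others i j, nt x i k j ∈ IntermediateField.adjoin ℚ ({ζ} : Set ℂ) :=
    sum_mem fun k hk => mem_adjoin_of_pow hn hζ (h k (mem_others hk).1 (mem_others hk).2)
  have h3 : (d : ℂ) - 2 ∈ IntermediateField.adjoin ℚ ({ζ} : Set ℂ) := by
    have : ((d - 2 : ℤ) : ℂ) ∈ IntermediateField.adjoin ℚ ({ζ} : Set ℂ) := intCast_mem _ _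
    simpa using this
  have h4 : (d : ℂ) - 2 ≠ 0 := by
    intro h0
    have h5 : (d : ℂ) = ((2 : ℕ) : ℂ) := by
      push_cast
      linear_combination h0
    have h6 : d = 2 := by exact_mod_cast h5
    omega
  have h5 : ((Real.sqrt ((d : ℝ) + 1) : ℝ) : ℂ) =
      (∑ k ∈ others i j, nt x i k j) / ((d : ℂ) - 2) := by
    rw [h1]; field_simp
  rw [h5]
  exact div_mem h2 h3

/-- the second moment modulo `p` -/
lemma prime_dvd (hx : IsMaxETF d x) {i j : Fin (d ^ 2)} (hij : i ≠ j) {p a : ℕ}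
    (hp : p.Prime) (h : ∀ k, k ≠ i → k ≠ j → nt x i k j ^ (2 * p ^ a) = 1) : p ∣ d := by
  have hpos : 0 < p ^ a := pow_pos hp.pos _
  have hζ := Complex.isPrimitiveRoot_exp (p ^ a) hpos.ne'
  set ζ := Complex.exp (2 * Real.pi * Complex.I / (p ^ a : ℕ)) with hζdef
  have : NeZero (p ^ a) := ⟨hpos.ne'⟩
  have hb : ∀ k, ∃ b : ℕ, k ∈ others i j → ζ ^ b = nt x i k j ^ 2 := by
    intro k
    by_cases hk : k ∈ others i j
    · obtain ⟨b, -, hb⟩ := hζ.eq_pow_of_pow_eq_one (ξ := nt x i k j ^ 2) (by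
        rw [← pow_mul]; exact h k (mem_others hk).1 (mem_others hk).2)
      exact ⟨b, fun _ => hb⟩
    · exact ⟨0, fun h => absurd h hk⟩
  choose b hb using hb
  set f : ℤ[X] := (∑ k ∈ others i j, X ^ (b k)) + C 2 with hf
  have h1 : aeval ζ f = 0 := by
    rw [hf, map_add, map_sum, aeval_C]
    have e : ∑ k ∈ others i j, aeval ζ ((X : ℤ[X]) ^ (b k)) = ∑ k ∈ others i j, nt x i k j ^ 2 :=
      Finset.sum_congr rfl fun k hk => by rw [map_pow, aeval_X, hb k hk]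
    rw [e, sum2 hx hij]
    simp
  have h2 := dvd_eval_one hp hζ h1
  have h3 : f.eval 1 = (d : ℤ) ^ 2 := by
    rw [hf, eval_add, eval_finsetSum, eval_C]
    simp only [eval_pow, eval_X, one_pow, Finset.sum_const, mul_one, nsmul_eq_mul]
    have h4 := card_others hij
    have h5 : (((others i j).card : ℤ) : ℂ) = (((d : ℤ) ^ 2 - 2 : ℤ) : ℂ) := by
      push_cast
      exact h4
    have h6 : ((others i j).card : ℤ) = (d : ℤ) ^ 2 - 2 := by exact_mod_cast h5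
    rw [h6]; ring
  rw [h3] at h2
  have h4 : p ∣ d ^ 2 := by exact_mod_cast h2
  exact hp.dvd_of_dvd_pow h4

/-- squarefree numbers all of whose prime divisors divide `n` -/
lemma squarefree_dvd {D n : ℕ} (hD : Squarefree D) (h : ∀ q : ℕ, q.Prime → q ∣ D → q ∣ n) :
    D ∣ n := by
  rw [← Nat.prod_primeFactors_of_squarefree hD]
  refine Finset.prod_primes_dvd n (fun q hq => (Nat.prime_of_mem_primeFactors hq).prime) ?_
  intro q hq
  exact h q (Nat.prime_of_mem_primeFactors hq) (Nat.dvd_of_mem_primeFactors hq)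

lemma squarefree_int {D : ℕ} (hD : Squarefree D) : Squarefree (D : ℤ) :=
  Int.squarefree_natCast.2 hD

/-- the one pair statement -/
theorem one_pair (hd : 3 ≤ d) (hx : IsMaxETF d x) {i j : Fin (d ^ 2)} (hij : i ≠ j) {n : ℕ}
    (hn : 0 < n) (h : ∀ k, k ≠ i → k ≠ j → nt x i k j ^ n = 1) (D m : ℕ) (hD : Squarefree D)
    (hDm : d + 1 = D * m ^ 2) : D ∣ n ∧ (Even D → 8 ∣ n) ∧ (D % 4 = 3 → 4 ∣ n) := by
  have hζ := Complex.isPrimitiveRoot_exp n hn.ne'
  set ζ := Complex.exp (2 * Real.pi * Complex.I / n) with hζdef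
  have h1 := sqrt_mem hd hx hij hn hζ h
  set s := ((Real.sqrt ((d : ℝ) + 1) : ℝ) : ℂ) with hs
  have hss : s ^ 2 = (d : ℂ) + 1 := by rw [pow_two]; exact sq_s
  have hm : (m : ℂ) ≠ 0 := by
    intro h0
    have : m = 0 := by exact_mod_cast h0
    rw [this] at hDm
    simp at hDm
  have h2 : s / m ∈ IntermediateField.adjoin ℚ ({ζ} : Set ℂ) :=
    div_mem h1 (natCast_mem _ _)
  have h3 : (s / m) ^ 2 = ((D : ℤ) : ℂ) := by
    rw [div_pow, hss, div_eq_iff (pow_ne_zero 2 hm)]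
    have : ((d + 1 : ℕ) : ℂ) = ((D * m ^ 2 : ℕ) : ℂ) := by rw [hDm]
    push_cast at this ⊢
    exact this
  obtain ⟨c1, c2, c3⟩ := conductor hn hζ (D : ℤ) (squarefree_int hD) (s / m) h2 h3
  refine ⟨squarefree_dvd hD fun q hq hqD => c1 q hq (by exact_mod_cast hqD), fun he => c2 ?_,
    fun h4 => c3 (by omega)⟩
  obtain ⟨e, he⟩ := he
  exact ⟨e, by omega⟩

/-- `d + 1` is a square if the phases are `2 p ^ a`-th roots of unity -/
theorem isSquare_of (hd : 3 ≤ d) (hx : IsMaxETF d x) {i j : Fin (d ^ 2)} (hij : i ≠ j) {p a : ℕ}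
    (hp : p.Prime) (h : ∀ k, k ≠ i → k ≠ j → nt x i k j ^ (2 * p ^ a) = 1) :
    p ∣ d ∧ IsSquare (d + 1) := by
  have hpd := prime_dvd hx hij hp h
  refine ⟨hpd, ?_⟩
  obtain ⟨m, D, hDm, hD⟩ := Nat.sq_mul_squarefree (d + 1)
  have hDm' : d + 1 = m * D ^ 2 := by rw [← hDm]; ring
  have hn : 0 < 2 * p ^ a := by have := pow_pos hp.pos a; omega
  obtain ⟨h1, h2, -⟩ := one_pair hd hx hij hn h m D hD hDm'
  have hm1 : m = 1 := by
    by_contra hm1
    obtain ⟨q, hq, hqm⟩ := Nat.exists_prime_and_dvd hm1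
    have hqd : q ∣ d + 1 := by rw [hDm']; exact Dvd.dvd.mul_right hqm _
    have hqp : q ≠ p := by
      rintro rfl
      have h3 := (Nat.dvd_add_right hpd).1 hqd
      exact hq.one_lt.ne' (Nat.dvd_one.1 h3)
    have hqn : q ∣ 2 * p ^ a := hqm.trans h1
    rcases (Nat.Prime.dvd_mul hq).1 hqn with h3 | h3
    · have hq2 : q = 2 := (Nat.prime_dvd_prime_iff_eq hq Nat.prime_two).1 h3
      subst hq2
      have h8 : 8 ∣ 2 * p ^ a := h2 (even_iff_two_dvd.2 hqm)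
      have h4 : 2 ∣ p ^ a := by omega
      have h5 := Nat.prime_two.dvd_of_dvd_pow h4
      exact hqp ((Nat.prime_dvd_prime_iff_eq Nat.prime_two hp).1 h5)
    · have h5 := hq.dvd_of_dvd_pow h3
      exact hqp ((Nat.prime_dvd_prime_iff_eq hq hp).1 h5)
  rw [hDm', hm1, one_mul]
  exact ⟨D, by ring⟩

end Pool.Agent.TH560.RU
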